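import Pool.Agent.H82.EUC.Stmts

/-!
Board euc (MP_d7577e_lc), row PAI, helper46: the pair identity for two paths of L-shaped steps.
-/

set_option autoImplicit false

namespace Pool.EUC

namespace PAIAux

lemma add_self2 (x : ZMod 2) : x + x = 0 := by
  revert x; decide

lemma one_one : (1 : ZMod 2) + 1 = 0 := by decide

lemma st_flip {a b : ℝ} (h : a ≠ b) : st b a = 1 + st a b := by
  unfold st
  rcases lt_or_gt_of_ne h with h1 | h1
  · rw [if_neg (not_le.2 h1), if_pos h1.le]
    exact one_one.symm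
  · rw [if_pos h1.le, if_neg (not_le.2 h1)]
    exact (add_zero _).symm

/-- `x` is not between `p` and `q` -/
lemma st_left {x p q : ℝ} (hx : x ∉ Set.uIcc p q) : st x p + st x q = 0 := by
  rw [Set.mem_uIcc] at hx
  push Not at hx
  have h : (x ≤ p ↔ x ≤ q) := by
    constructor
    · intro h
      by_contra hc
      rw [not_le] at hc
      exact absurd (hx.2 hc.le) (not_lt.2 h)
    · intro h
      by_contra hc
      rw [not_le] at hc
      exact absurd (hx.1 hc.le) (not_lt.2 h)
  unfold st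
  by_cases h1 : x ≤ p
  · rw [if_pos h1, if_pos (h.1 h1)]; exact one_one
  · rw [if_neg h1, if_neg (fun h2 => h1 (h.2 h2))]; exact add_zero _

lemma st_right {x p q : ℝ} (hp : p ≠ x) (hq : q ≠ x) (hx : x ∉ Set.uIcc p q) :
    st p x + st q x = 0 := by
  rw [st_flip hp.symm, st_flip hq.symm]
  have h := st_left hx
  calc 1 + st x p + (1 + st x q) = (1 + 1) + (st x p + st x q) := by ring
    _ = 0 := by rw [h, one_one, add_zero]

lemma tel (f : ℕ → ZMod 2) (n : ℕ) :
    ∑ i ∈ Finset.range n, (f i + f (i + 1)) = f 0 + f n := by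
  induction n with
  | zero => rw [Finset.sum_range_zero]; exact (add_self2 _).symm
  | succ n ih =>
    rw [Finset.sum_range_succ, ih]
    calc f 0 + f n + (f n + f (n + 1)) = f 0 + f (n + 1) + (f n + f n) := by ring
      _ = _ := by rw [add_self2, add_zero]

end PAIAux

open PAIAux

theorem pai_thm : PAI_S := by
  intro z t N M hne h1 h2
  set A : ℕ → ℕ → ZMod 2 := fun s r => st (z s).1 (t r).1 with hA
  set B : ℕ → ℕ → ZMod 2 := fun s r => st (z s).2 (t r).2 with hB
  set P : ℕ → ℕ → ZMod 2 := fun s r => A s r * (B s r + B s (r + 1)) with hP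
  set Q : ℕ → ℕ → ZMod 2 := fun s r => A s r * (B s r + B (s + 1) r) with hQ
  have c1 : ∀ s < N, ∀ r < M, (A s r + A s (r + 1)) * (B s (r + 1) + B (s + 1) (r + 1)) = 0 := by
    intro s hs r hr
    by_cases h : (z s).1 ∈ Set.uIcc (t r).1 (t (r + 1)).1
    · have h3 : (t (r + 1)).2 ∉ Set.uIcc (z s).2 (z (s + 1)).2 := fun h4 => h1 s hs r hr ⟨h, h4⟩
      have h5 : B s (r + 1) + B (s + 1) (r + 1) = 0 :=
        st_right (hne s hs.le (r + 1) hr).2 (hne (s + 1) hs (r + 1) hr).2 h3
      rw [h5, mul_zero]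
    · have h5 : A s r + A s (r + 1) = 0 := st_left h
      rw [h5, zero_mul]
  have c2 : ∀ s < N, ∀ r < M, (A s r + A (s + 1) r) * (B (s + 1) r + B (s + 1) (r + 1)) = 0 := by
    intro s hs r hr
    by_cases h : (t r).1 ∈ Set.uIcc (z s).1 (z (s + 1)).1
    · have h3 : (z (s + 1)).2 ∉ Set.uIcc (t r).2 (t (r + 1)).2 := fun h4 => h2 s hs r hr ⟨h, h4⟩
      have h5 : B (s + 1) r + B (s + 1) (r + 1) = 0 := st_left h3
      rw [h5, mul_zero]
    · have h5 : A s r + A (s + 1) r = 0 :=
        st_right (hne s hs.le r hr.le).1 (hne (s + 1) hs r hr.le).1 h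
      rw [h5, zero_mul]
  have c3 : ∀ s < N, ∀ r < M, (P s r + P (s + 1) r) + (Q s r + Q s (r + 1)) = 0 := by
    intro s hs r hr
    have e1 := c1 s hs r hr
    have e2 := c2 s hs r hr
    have e3 : (P s r + P (s + 1) r) + (Q s r + Q s (r + 1)) +
        ((A s r + A s (r + 1)) * (B s (r + 1) + B (s + 1) (r + 1)) +
        (A s r + A (s + 1) r) * (B (s + 1) r + B (s + 1) (r + 1))) =
        (A s r * B s r + A s r * B s r) + (A s r * B s (r + 1) + A s r * B s (r + 1)) +
        (A (s + 1) r * B (s + 1) r + A (s + 1) r * B (s + 1) r) +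
        (A (s + 1) r * B (s + 1) (r + 1) + A (s + 1) r * B (s + 1) (r + 1)) +
        (A s r * B (s + 1) r + A s r * B (s + 1) r) +
        (A s (r + 1) * B s (r + 1) + A s (r + 1) * B s (r + 1)) +
        (A s (r + 1) * B (s + 1) (r + 1) + A s (r + 1) * B (s + 1) (r + 1)) +
        (A s r * B (s + 1) (r + 1) + A s r * B (s + 1) (r + 1)) := by
      simp only [hP, hQ]
      ring
    rw [e1, e2] at e3
    simp only [add_self2, add_zero] at e3
    exact e3
  have c4 : ∑ s ∈ Finset.range N, ∑ r ∈ Finset.range M,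
      ((P s r + P (s + 1) r) + (Q s r + Q s (r + 1))) = 0 := by
    refine Finset.sum_eq_zero fun s hs => Finset.sum_eq_zero fun r hr => ?_
    exact c3 s (Finset.mem_range.1 hs) r (Finset.mem_range.1 hr)
  have c5 : ∑ s ∈ Finset.range N, ∑ r ∈ Finset.range M,
      ((P s r + P (s + 1) r) + (Q s r + Q s (r + 1))) =
      (∑ r ∈ Finset.range M, P 0 r + ∑ r ∈ Finset.range M, P N r) +
      (∑ s ∈ Finset.range N, Q s 0 + ∑ s ∈ Finset.range N, Q s M) := by
    have e1 : ∀ s, ∑ r ∈ Finset.range M, ((P s r + P (s + 1) r) + (Q s r + Q s (r + 1))) =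
        ∑ r ∈ Finset.range M, (P s r + P (s + 1) r) + (Q s 0 + Q s M) := by
      intro s
      rw [Finset.sum_add_distrib, tel (fun r => Q s r) M]
    rw [Finset.sum_congr rfl (fun s _ => e1 s), Finset.sum_add_distrib, Finset.sum_comm,
      Finset.sum_congr rfl (fun r _ => tel (fun s => P s r) N), Finset.sum_add_distrib,
      Finset.sum_add_distrib]
  rw [c4] at c5
  -- the potentials
  have p1 : ∀ r, ph z N (t r) = ∑ s ∈ Finset.range N, Q s r := by
    intro r
    rfl
  have p2 : ∀ s ≤ N, ph t M (z s) = (B s 0 + B s M) + ∑ r ∈ Finset.range M, P s r := by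
    intro s hs
    unfold ph
    have e1 : ∀ r ∈ Finset.range M, st (t r).1 (z s).1 *
        (st (t r).2 (z s).2 + st (t (r + 1)).2 (z s).2) = (B s r + B s (r + 1)) + P s r := by
      intro r hr
      have hr' := Finset.mem_range.1 hr
      rw [st_flip (hne s hs r hr'.le).1, st_flip (hne s hs r hr'.le).2,
        st_flip (hne s hs (r + 1) hr').2]
      show (1 + A s r) * (1 + B s r + (1 + B s (r + 1))) = _
      calc (1 + A s r) * (1 + B s r + (1 + B s (r + 1)))
          = (1 + A s r) * ((1 + 1) + (B s r + B s (r + 1))) := by ring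
        _ = (B s r + B s (r + 1)) + A s r * (B s r + B s (r + 1)) := by
            rw [one_one]; ring
    rw [Finset.sum_congr rfl e1, Finset.sum_add_distrib, tel (fun r => B s r) M]
  have p3 : ∀ s ≤ N, ∀ r ≤ M, st (t r).2 (z s).2 = 1 + B s r := by
    intro s hs r hr
    exact st_flip (hne s hs r hr).2
  rw [p1, p1, p2 0 (Nat.zero_le _), p2 N le_rfl, p3 0 (Nat.zero_le _) 0 (Nat.zero_le _),
    p3 0 (Nat.zero_le _) M le_rfl, p3 N le_rfl 0 (Nat.zero_le _), p3 N le_rfl M le_rfl]
  calc ∑ s ∈ Finset.range N, Q s 0 + ∑ s ∈ Finset.range N, Q s M +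
        (B 0 0 + B 0 M + ∑ r ∈ Finset.range M, P 0 r) +
        (B N 0 + B N M + ∑ r ∈ Finset.range M, P N r) +
        (1 + B 0 0 + (1 + B 0 M) + (1 + B N 0) + (1 + B N M))
      = ((∑ r ∈ Finset.range M, P 0 r + ∑ r ∈ Finset.range M, P N r) +
        (∑ s ∈ Finset.range N, Q s 0 + ∑ s ∈ Finset.range N, Q s M)) +
        ((B 0 0 + B 0 0) + (B 0 M + B 0 M) + (B N 0 + B N 0) + (B N M + B N M) +
        ((1 + 1) + (1 + 1))) := by ring
    _ = 0 := by
        rw [← c5]
        simp only [add_self2, add_zero]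

end Pool.EUC
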